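import Pool.Agent.W845.DH.Stm

/-! Project DH (helper845): absorbing cycle and connectors. -/

set_option autoImplicit false

open scoped Classical

namespace Pool.Agent.W565.DH

open Pool.Agent.W845.DH Finset

theorem VDs.sub {V : Type} {F G : Finset (V × V)} (h : VDs F) (hG : G ⊆ F) : VDs G :=
  ⟨fun e he => h.1 e (hG he), fun e he f hf => h.2 e (hG he) f (hG hf)⟩

theorem ne1 (hSEL : S_SEL) (hABS : S_ABS) (hCONX : S_CONX) : S_NE1 := by
  intro γ ζ hγ hγ4 hζ
  set z : ℝ := min ζ γ with hz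
  have hz0 : 0 < z := lt_min hζ hγ
  have hzζ : z ≤ ζ := min_le_left _ _
  have hzγ : z ≤ γ := min_le_right _ _
  set al1 : ℝ := z / 200 with hal1
  set al2 : ℝ := γ * al1 / 128 with hal2
  have h1 : 0 < al1 := by positivity
  have h2 : 0 < al2 := by positivity
  have h1γ : al1 ≤ γ / 200 := by rw [hal1]; linarith
  have h21 : al2 ≤ al1 / 128 := by
    rw [hal2]
    have : γ * al1 ≤ 1 * al1 := mul_le_mul_of_nonneg_right (by linarith) h1.le
    linarith
  set a : ℝ := min (γ * al1 / 32) (γ * al2 / 16) with ha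
  have ha0 : 0 < a := lt_min (by positivity) (by positivity)
  have ha1 : a ≤ γ * al1 / 32 := min_le_left _ _
  have ha2 : a ≤ γ * al2 / 16 := min_le_right _ _
  obtain ⟨N1, hN1⟩ := hSEL γ al1 hγ (by linarith) h1 (by linarith)
  obtain ⟨N2, hN2⟩ := hSEL γ al2 hγ (by linarith) h2 (by linarith)
  refine ⟨a, max N1 (max N2 ⌈7 / γ⌉₊), ha0, ?_⟩
  intro n D hn hirr hdeg hrob
  have hn1 : N1 ≤ n := (le_max_left _ _).trans hn
  have hn2 : N2 ≤ n := ((le_max_left _ _).trans (le_max_right _ _)).trans hn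
  have hn3 : 7 / γ ≤ (n : ℝ) := by
    refine (Nat.le_ceil _).trans ?_
    exact_mod_cast ((le_max_right _ _).trans (le_max_right _ _)).trans hn
  have hn0 : (0 : ℝ) < n := lt_of_lt_of_le (by positivity) hn3
  have hn0' : 0 < n := by exact_mod_cast hn0
  have hγn : 7 ≤ γ * n := by
    rw [div_le_iff₀ hγ] at hn3
    linarith
  have hcard : (Fintype.card (Fin n) : ℝ) = n := by rw [Fintype.card_fin]
  obtain ⟨hc1, hc2, hc3⟩ := hCONX (Fin n) γ D ⌊γ / 2 * n⌋₊ hγ hγ4 hirr
    (by rw [hcard]; exact hdeg) hrob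
  rw [hcard] at hc1
  simp only [hcard] at hc2 hc3
  have hne : ∀ e : Fin n × Fin n, D e.1 e.2 → e.1 ≠ e.2 := by
    intro e he h
    rw [h] at he
    exact hirr _ he
  -- first selection
  obtain ⟨M1, hM1, -, hM1c, hM1E⟩ := hN1 n (Fin n)
    (fun v => univ.filter (fun e : Fin n × Fin n => D e.1 v ∧ D e.1 e.2 ∧ D v e.2)) ∅ hn1
    (by rw [Fintype.card_fin]; exact Nat.le_self_pow two_ne_zero n) hc3
    (by
      intro v e he
      exact hne e (mem_filter.1 he).2.2.1)
    (by rw [card_empty]; push_cast; positivity)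
  set A : Finset (Fin n × Fin n) := M1.filter (fun e => D e.1 e.2) with hA
  have hAM : A ⊆ M1 := filter_subset _ _
  have hAD : ∀ e ∈ A, D e.1 e.2 := fun e he => (mem_filter.1 he).2
  have hAv : ∀ v, γ * al1 / 16 * n ≤ ((A.filter (fun e => D e.1 v ∧ D v e.2)).card : ℝ) := by
    intro v
    refine (hM1E v).trans ?_
    have : (M1 ∩ univ.filter (fun e : Fin n × Fin n => D e.1 v ∧ D e.1 e.2 ∧ D v e.2)).card ≤
        (A.filter (fun e => D e.1 v ∧ D v e.2)).card := by
      apply card_le_card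
      intro e he
      rw [mem_inter, mem_filter] at he
      rw [mem_filter, hA, mem_filter]
      exact ⟨⟨he.1, he.2.2.2.1⟩, he.2.2.1, he.2.2.2.2⟩
    exact_mod_cast this
  have hAc : (A.card : ℝ) ≤ al1 * n := by
    refine le_trans ?_ hM1c
    exact_mod_cast card_le_card hAM
  -- absorbing cycle
  have hm : 8 * A.card + 2 ≤ ⌊γ / 2 * (n : ℝ)⌋₊ := by
    apply Nat.le_floor
    push_cast
    have h3 : al1 * n ≤ γ / 200 * n := mul_le_mul_of_nonneg_right h1γ hn0.le
    nlinarith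
  obtain ⟨τ, ht1, ht2, ht3, ht4⟩ := hABS (Fin n) D ⌊γ / 2 * (n : ℝ)⌋₊ A
    (hc1 (Nat.floor_le (by positivity))) (VDs.sub hM1 hAM) hAD hm
  set W0 : Finset (Fin n) := univ.filter (fun v => τ v ≠ v) with hW0
  have hW0c : (W0.card : ℝ) ≤ 6 * (al1 * n) := by
    have : (W0.card : ℝ) ≤ 6 * A.card := by exact_mod_cast ht4
    linarith
  -- second selection
  obtain ⟨M2, hM2, hM2Z, hM2c, hM2E⟩ := hN2 n (Fin n × Fin n)
    (fun i => univ.filter (fun e : Fin n × Fin n => D i.1 e.1 ∧ D e.1 e.2 ∧ D e.2 i.2)) W0 hn2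
    (by rw [Fintype.card_prod, Fintype.card_fin, pow_two]) (fun i => hc2 i.1 i.2)
    (by
      intro i e he
      exact hne e (mem_filter.1 he).2.2.1)
    (by
      have h3 : al1 * n ≤ γ / 200 * n := mul_le_mul_of_nonneg_right h1γ hn0.le
      nlinarith)
  set M : Finset (Fin n × Fin n) := M2.filter (fun e => D e.1 e.2) with hM
  have hMM : M ⊆ M2 := filter_subset _ _
  have hMc : (M.card : ℝ) ≤ al2 * n := by
    refine le_trans ?_ hM2c
    exact_mod_cast card_le_card hMM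
  have hfix : ∀ v, v ∉ W0 → τ v = v := by
    intro v hv
    by_contra h
    exact hv (by rw [hW0, mem_filter]; exact ⟨mem_univ _, h⟩)
  have hAe : ∀ e ∈ A, τ e.1 = e.2 ∧ e.1 ≠ e.2 := fun e he => ⟨ht3 e he, hne e (hAD e he)⟩
  refine ⟨τ, A, M, ht1, ht2, ?_, hAe, VDs.sub hM2 hMM, ?_, ?_, ?_, ?_⟩
  · have hv := hAv ⟨0, hn0'⟩
    have hpos : 0 < ((A.filter (fun e => D e.1 ⟨0, hn0'⟩ ∧ D ⟨0, hn0'⟩ e.2)).card : ℝ) :=
      lt_of_lt_of_le (by positivity) hv
    have hpos' : 0 < (A.filter (fun e => D e.1 ⟨0, hn0'⟩ ∧ D ⟨0, hn0'⟩ e.2)).card := by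
      exact_mod_cast hpos
    obtain ⟨e, he⟩ := card_pos.1 hpos'
    have he' := hAe e (mem_filter.1 he).1
    exact ⟨e.1, by rw [he'.1]; exact he'.2.symm⟩
  · intro e he
    have h3 := hM2Z e (hMM he)
    exact ⟨hfix _ h3.1, hfix _ h3.2, (mem_filter.1 he).2⟩
  · intro u w
    have h3 := hM2E (u, w)
    have h4 : (M2 ∩ univ.filter (fun e : Fin n × Fin n => D u e.1 ∧ D e.1 e.2 ∧ D e.2 w)).card ≤
        (M.filter (fun e => D u e.1 ∧ D e.2 w)).card := by
      apply card_le_card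
      intro e he
      rw [mem_inter, mem_filter] at he
      rw [mem_filter, hM, mem_filter]
      exact ⟨⟨he.1, he.2.2.2.1⟩, he.2.2.1, he.2.2.2.2⟩
    have h5 : a * n ≤ γ * al2 / 16 * n := mul_le_mul_of_nonneg_right ha2 hn0.le
    refine h5.trans (h3.trans ?_)
    exact_mod_cast h4
  · have h3 : al2 * n ≤ al1 / 128 * n := mul_le_mul_of_nonneg_right h21 hn0.le
    have h4 : al1 * n = z / 200 * n := rfl
    have h5 : z * n ≤ ζ * n := mul_le_mul_of_nonneg_right hzζ hn0.le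
    have h6 : 0 < z * n := by positivity
    have h7 : ((univ.filter (fun v => τ v ≠ v)).card : ℝ) ≤ 6 * (al1 * n) := hW0c
    nlinarith
  · intro v
    have h3 := hAv v
    have h5 : a * n ≤ γ * al1 / 32 * n := mul_le_mul_of_nonneg_right ha1 hn0.le
    have h6 : al2 * n = γ * al1 / 128 * n := rfl
    have h7 : 0 < γ * al1 * n := by positivity
    nlinarith

end Pool.Agent.W565.DH
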